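import Pool.Agent.helper1.CD.Spec
set_option autoImplicit false
open NumberField IsDedekindDomain Complex Pool.Agent.CH Pool.Agent.GK
namespace Pool.Agent.CD

/-- class equation: the centralizers of different conjugates of one element -/
theorem LOA_grp (G : Type) [Group G] [Finite G] (Y : Finset G) (g₀ : G) (h : ∀ g ∈ Y, IsConj g₀ g) :
    ∑ g ∈ Y, Nat.card {h : G // h * g = g * h} ≤ Nat.card G := by
  classical
  have : Fintype G := Fintype.ofFinite G
  have h1 : ∀ g ∈ Y, Nat.card {h : G // h * g = g * h} = (Finset.univ.filter (fun x : G => x * g₀ = g * x)).card := by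
    intro g hg
    obtain ⟨k, hk⟩ := isConj_iff.mp (h g hg)
    rw [Nat.card_eq_fintype_card, Fintype.card_subtype]
    apply Finset.card_bij (fun x _ => x * k)
    · intro x hx
      rw [Finset.mem_filter] at hx ⊢
      refine ⟨Finset.mem_univ _, ?_⟩
      have h2 : k * g₀ = g * k := by rw [← hk]; group
      rw [mul_assoc, h2, ← mul_assoc, hx.2, mul_assoc]
    · intro x _ y _ hxy
      exact mul_right_cancel hxy
    · intro y hy
      rw [Finset.mem_filter] at hy
      refine ⟨y * k⁻¹, ?_, by group⟩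
      rw [Finset.mem_filter]
      refine ⟨Finset.mem_univ _, ?_⟩
      have h2 : k⁻¹ * g = g₀ * k⁻¹ := by rw [← hk]; group
      rw [mul_assoc, h2, ← mul_assoc, hy.2, mul_assoc]
  rw [Finset.sum_congr rfl h1, ← Finset.card_biUnion, Nat.card_eq_fintype_card]
  · exact Finset.card_le_univ _
  · intro g _ g' _ hgg'
    rw [Function.onFun, Finset.disjoint_left]
    intro x hx hx'
    rw [Finset.mem_filter] at hx hx'
    apply hgg'
    exact mul_right_cancel (hx.2.symm.trans hx'.2)

theorem LOA (hUNQ : UNQ_stmt) : LOA_stmt := by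
  classical
  intro K M _ _ _ _ _ _
  obtain ⟨T, hT⟩ := hUNQ K M
  refine ⟨T, fun v hv Y hY => ?_⟩
  rcases Y.eq_empty_or_nonempty with h0 | ⟨g₀, hg₀⟩
  · rw [h0, Finset.sum_empty]
    exact Nat.zero_le _
  · obtain ⟨_, P₀, hP₀, hu₀, hF₀⟩ := hY g₀ hg₀
    apply LOA_grp (M ≃ₐ[K] M) Y g₀
    intro g hg
    obtain ⟨_, P, hP, hu, hF⟩ := hY g hg
    exact hT v hv P₀ P g₀ g hP₀ hP hu₀ hu hF₀ hF

end Pool.Agent.CD
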